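import Mathlib
import Pool.Agent.W890.SF.All
import Pool.Agent.W890.SF.R2

set_option autoImplicit false

namespace Pool.Agent.Results.MP_1aab60_co.BeyondRPlusOne

open Finset

/-- `F` has a `k`-matching: `k` edges, no two of which share a vertex -/
def HasMatching {n : ℕ} (F : Finset (Finset (Fin n))) (k : ℕ) : Prop :=
  ∃ M : Finset (Finset (Fin n)), M ⊆ F ∧ M.card = k ∧ ∀ a ∈ M, ∀ b ∈ M, a ≠ b → Disjoint a b

/-- `f(n;r,k)`: the largest number of edges of an `r`-uniform hypergraph on `n` vertices without a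
`k`-matching -/
noncomputable def f (n r k : ℕ) : ℕ :=
  sSup {c : ℕ | ∃ F : Finset (Finset (Fin n)), (∀ e ∈ F, e.card = r) ∧ ¬ HasMatching F k ∧
    F.card = c}

/-- Erdős matching conjecture for all large `n ≥ (r + 39/40) (k - 1)`: for every `r ≥ 3` there is
`n0` such that for all `n ≥ n0` and all `k ≥ 1` with `(r + 39/40) (k - 1) ≤ n` one has
`f(n;r,k) = max (C(rk-1,r)) (C(n,r) - C(n-k+1,r))`, the maximum being the second term; the set of
edge numbers has this as its greatest element, and `rk - 1 ≤ n` holds. -/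
theorem result (r : ℕ) (hr : 3 ≤ r) :
    ∃ n0 : ℕ, ∀ n : ℕ, n0 ≤ n → ∀ k : ℕ, 1 ≤ k → (40 * r + 39) * (k - 1) ≤ 40 * n →
      r * k - 1 ≤ n ∧
      f n r k = max ((r * k - 1).choose r) (n.choose r - (n - k + 1).choose r) ∧
      IsGreatest {c : ℕ | ∃ F : Finset (Finset (Fin n)), (∀ e ∈ F, e.card = r) ∧
        ¬ HasMatching F k ∧ F.card = c}
        (max ((r * k - 1).choose r) (n.choose r - (n - k + 1).choose r)) ∧
      (r * k - 1).choose r ≤ n.choose r - (n - k + 1).choose r := by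
  obtain ⟨n0, h0⟩ := Pool.Agent.W890.SF.R2.form2 Pool.Agent.W890.SF.t_EMC Pool.Agent.W890.SF.t_LOW r
    (by omega)
  refine ⟨n0, fun n hn k hk hkn => ?_⟩
  obtain ⟨h1, h2, h3, F, hF1, hF2, hF3⟩ := h0 n hn k hk hkn
  have hg : IsGreatest {c : ℕ | ∃ F : Finset (Finset (Fin n)), (∀ e ∈ F, e.card = r) ∧
        ¬ HasMatching F k ∧ F.card = c}
        (max ((r * k - 1).choose r) (n.choose r - (n - k + 1).choose r)) := by
    refine ⟨⟨F, hF1, hF2, hF3⟩, ?_⟩
    rintro c ⟨G, hG1, hG2, rfl⟩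
    exact h3 G hG1 hG2
  exact ⟨h1, hg.csSup_eq, hg, h2⟩

end Pool.Agent.Results.MP_1aab60_co.BeyondRPlusOne
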